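import Pool.Agent.V11222.NullMain
import Pool.Agent.V11222.RigidMain

/-!
There is a homogeneous zero-dimensional separable metrizable space that is not a union of
countably many strongly homogeneous subspaces. The definitions are in
`Pool/Agent/V11222/HomogDefs.lean`.
-/

namespace Pool.Agent.Results.MP_999952_gt.NoStrongWitnesses

open Set Topology Pool.Agent.V11222 Pool.Agent.V11222.GenTrans

/-- There is a homogeneous (hence σ-homogeneous) subspace `X` of the Cantor space (hence a
zero-dimensional separable metrizable space) that is not a union of countably many strongly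
homogeneous subspaces. -/
theorem result : ∃ X : Set (ℕ → Bool),
    IsZeroDimSpace X ∧ TopologicalSpace.SeparableSpace X ∧ TopologicalSpace.MetrizableSpace X ∧
    IsHomogeneousSpace X ∧ IsSigmaHomogeneous X ∧ ¬ IsSigmaStronglyHomogeneous X := by
  classical
  obtain ⟨G⟩ := exists_generic_transversal countable_EE (fun _ _ h => EE.symm h)
  have hhom := isHomogeneous_XE G
  refine ⟨XE G, isZeroDim_sub ⟨G.t (Classical.arbitrary J), _, EE.refl _⟩, inferInstance,
    inferInstance, hhom, ?_, ?_⟩
  · refine ⟨fun _ => Set.univ, fun _ => ?_, iUnion_const _⟩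
    exact IsHomogeneousSpace.of_homeomorph (Homeomorph.Set.univ (XE G)).symm hhom
  · rintro ⟨A, hA, hAu⟩
    refine not_cover G (fun n => Subtype.val '' (A n)) (fun n => ?_) ?_
    · apply ess_eq_zero G
      · rintro _ ⟨x, -, rfl⟩
        exact x.2
      · exact IsStronglyHomogeneous.of_homeomorph
          (IsEmbedding.subtypeVal.homeomorphImage (A n)) (hA n)
    · intro x hx
      have h1 : (⟨x, hx⟩ : XE G) ∈ ⋃ n, A n := by rw [hAu]; trivial
      obtain ⟨n, hn⟩ := mem_iUnion.mp h1
      exact mem_iUnion.mpr ⟨n, ⟨x, hx⟩, hn, rfl⟩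

end Pool.Agent.Results.MP_999952_gt.NoStrongWitnesses
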